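import Pool.Agent.H.MP_072fb1_ag.Data

/-!
# Manifolds of `Kum₂`-type with Picard number one

`H²(X, ℤ) = V ⊕ ℤδ`, `V = Λ²ℤ⁴`, `δ² = -6`, for every manifold `X` deformation equivalent to a generalised Kummer
fourfold. The period of `X` is a vector `s` of `V_ℂ ⊕ ℂ`.
-/

set_option autoImplicit false

namespace Pool.Agent.H.MP_072fb1_ag.KP

/-- `H²(X, K) = V_K ⊕ Kδ`; `x = (v, t)` is `v + t δ`. -/
abbrev V7 (K : Type*) := (Fin 6 → K) × K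

/-- The Beauville–Bogomolov form, `(δ, δ) = -6`. -/
def pair7 {K : Type*} [CommRing K] (x y : V7 K) : K := pairV x.1 y.1 - 6 * (x.2 * y.2)

/-- Pairing of a rational class with a complex class. -/
noncomputable def pC7 (x : V7 ℚ) (s : V7 ℂ) : ℂ := pair7 (fun i => ((x.1 i : ℚ) : ℂ), (x.2 : ℂ)) s

/-- `s` spans `H^{2,0}(X)` for a marked manifold `X` of `Kum₂`-type. -/
def IsPeriod7 (s : V7 ℂ) : Prop :=
  pair7 s s = 0 ∧ 0 < (pair7 s (fun i => (starRingEnd ℂ) (s.1 i), (starRingEnd ℂ) s.2)).re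

/-- `λ = a h + b δ`, `h = ε₁∧ε₂ + d ε₃∧ε₄`. -/
def lam (a b : ℤ) (d : ℕ) : V7 ℚ := (![(a : ℚ), 0, 0, 0, 0, (a : ℚ) * d], (b : ℚ))

/-- `NS(X) ⊗ ℚ = ℚ l`. -/
def PicardLine (s : V7 ℂ) (l : V7 ℚ) : Prop := ∀ x : V7 ℚ, pC7 x s = 0 ↔ ∃ r : ℚ, x = r • l

/-- The only rational Hodge isometries of the orthogonal complement of `l` are `1` and `-1`. -/
def HodgeGeneral (s : V7 ℂ) (l : V7 ℚ) : Prop :=
  ∀ φ : V7 ℚ →ₗ[ℚ] V7 ℚ, (∀ t, pair7 l t = 0 → pair7 l (φ t) = 0) →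
    (∀ t u, pair7 l t = 0 → pair7 l u = 0 → pair7 (φ t) (φ u) = pair7 t u) →
    (∃ c : ℂ, ∀ t, pair7 l t = 0 → pC7 (φ t) s = c * pC7 t s) →
    (∀ t, pair7 l t = 0 → φ t = t) ∨ (∀ t, pair7 l t = 0 → φ t = -t)

/-- The period of the dual partner: `dualV` on `V`, `-1` on `δ`. -/
def dual7 {K : Type*} [CommRing K] (s : V7 K) : V7 K := (dualV s.1, -s.2)

/-- `H²(X, ℤ)` and `H²(Y, ℤ)` are Hodge isometric, for `X`, `Y` with periods `s`, `s'`. -/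
def HodgeIsometric7 (s s' : V7 ℂ) : Prop :=
  ∃ (φ : ((Fin 6 → ℤ) × ℤ) ≃+ ((Fin 6 → ℤ) × ℤ)) (c : ℂ), c ≠ 0 ∧
    (∀ x y, bb (φ x) (φ y) = bb x y) ∧
    ∀ x, pair7 (fun i => (((φ x).1 i : ℤ) : ℂ), (((φ x).2 : ℤ) : ℂ)) s' =
      c * pair7 (fun i => ((x.1 i : ℤ) : ℂ), ((x.2 : ℤ) : ℂ)) s

/-- `ψ` is a linear isometry of `H̃ = V ⊕ U ⊕ ℚδ` with `ψ(ℂs) = ℂs'`. -/
structure HodgeIsometryHt7 (ψ : Ht ℚ → Ht ℚ) (s s' : V7 ℂ) : Prop where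
  map_add : ∀ x y, ψ (x + y) = ψ x + ψ y
  map_smul : ∀ (c : ℚ) x, ψ (c • x) = c • ψ x
  isometry : ∀ x y, pair (ψ x) (ψ y) = pair x y
  period : ∃ c : ℂ, ∀ x, pC7 ((ψ x).1, (ψ x).2 2) s' = c * pC7 (x.1, x.2 2) s

section

variable {S : Type} [AddCommGroup S] [Module ℚ S]

/-- There is an automorphism `g` of the lattice `(S, M)` lifting an isometry `ψ` of `H̃` which maps
the Hodge structure with period `s` to the Hodge structure with period `s'`. -/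
def KIsomorphic7 (κ : Ht ℚ → Ht ℚ → S → S) (M : Submodule ℤ S) (s s' : V7 ℂ) : Prop :=
  ∃ (g : S ≃ₗ[ℚ] S) (ψ : Ht ℚ → Ht ℚ), Preserves g M ∧ Lifts κ g ψ ∧ HodgeIsometryHt7 ψ s s'

end

end Pool.Agent.H.MP_072fb1_ag.KP
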