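import Pool.Agent.H.MP_072fb1_ag.KP.Per

/-!
# Module ExB: the only Hodge isometries of the transcendental part are `1` and `-1`

PROOF. Write `s = perS q d β`, `q = b / a`. Let `t₀ = (e, 0)`, `e = ![0,0,0,1,0,0]`, so `pC7 t₀ s = 1` and `pair7 λ t₀ = 0`. For `φ, c` as in
`HodgeGeneral`: `φ^n t₀` is in `λ^⊥` and `c ^ n = pC7 (φ^n t₀) s` for all `n`. By `pC7_perS`, `c = P(β) + i Q(β)`, `P, Q ∈ ℚ[X]`
(`Q = v₁ X² - v₄ X`), `|c ^ n|² = A(β) ^ n`, `A = P² + Q²`, and also `= P_n(β)² + Q_n(β)²` with `P_n, Q_n` of degree at most `4`; by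
transcendence `A ^ n = P_n² + Q_n²`, so `n deg A ≤ 8` for `n = 9`, so `deg A = 0`, so `P`, `Q` are constant (the coefficient of `X^{2m}`,
`m` the larger degree, of `P² + Q²` is a sum of two squares, not both zero), so `Q = 0`, and `c = r` is rational. For `t ∈ λ^⊥`:
`φ t - r t ∈ λ^⊥` and `pC7 (φ t - r t) s = 0` (linearity of `pC7` in the first variable), so by `hline` `φ t - r t = x λ`,
`0 = pair7 λ (x λ) = x (λ, λ)`, `x = 0` by `hl`: `φ t = r t`. Finally `r² = 1` from `pair7 (φ t₀) (φ u) = pair7 t₀ u = 1`,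
`u = (![0,0,1,0,0,0], 0)`.
-/

set_option autoImplicit false

namespace Pool.Agent.H.MP_072fb1_ag.KP

open Polynomial

private theorem sumsq (P Q : ℚ[X]) (h : (P * P + Q * Q).natDegree = 0) :
    P.natDegree = 0 ∧ Q.natDegree = 0 := by
  have key : ∀ m : ℕ, 0 < m → P.natDegree ≤ m → Q.natDegree ≤ m → P.coeff m = 0 ∧ Q.coeff m = 0 := by
    intro m hm hP hQ
    have h1 : (P * P + Q * Q).coeff (m + m) = 0 := coeff_eq_zero_of_natDegree_lt (by omega)
    rw [coeff_add, coeff_mul_add_eq_of_natDegree_le hP hP, coeff_mul_add_eq_of_natDegree_le hQ hQ] at h1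
    have h2 := mul_self_nonneg (P.coeff m)
    have h3 := mul_self_nonneg (Q.coeff m)
    exact ⟨mul_self_eq_zero.1 (by linarith), mul_self_eq_zero.1 (by linarith)⟩
  have lead : ∀ R : ℚ[X], 0 < R.natDegree → R.coeff R.natDegree ≠ 0 := by
    intro R hR
    rw [coeff_natDegree]
    intro h0
    rw [leadingCoeff_eq_zero] at h0
    rw [h0, natDegree_zero] at hR
    exact lt_irrefl 0 hR
  rcases le_total P.natDegree Q.natDegree with h1 | h1
  · have h2 : Q.natDegree = 0 := by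
      by_contra h3
      exact lead Q (Nat.pos_of_ne_zero h3) (key _ (Nat.pos_of_ne_zero h3) h1 le_rfl).2
    omega
  · have h2 : P.natDegree = 0 := by
      by_contra h3
      exact lead P (Nat.pos_of_ne_zero h3) (key _ (Nat.pos_of_ne_zero h3) le_rfl h1).1
    omega

private noncomputable def RP (q : ℚ) (d : ℕ) (x : V7 ℚ) : ℚ[X] :=
  C (x.1 3) + C (x.1 5 - d * x.1 0) * X + C (6 * q * x.1 0 + d * x.1 2 - 6 * x.2) * X ^ 2 +
    C ((1 - 6 * q) * x.1 2) * X ^ 3 + C (3 * x.1 2) * X ^ 4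

private noncomputable def IP (x : V7 ℚ) : ℚ[X] := C (x.1 1) * X ^ 2 - C (x.1 4) * X

private theorem RP_eval (q : ℚ) (d : ℕ) (x : V7 ℚ) (β : ℝ) :
    aeval β (RP q d x) = reP q d x β := by
  simp [RP, reP]

private theorem IP_eval (x : V7 ℚ) (β : ℝ) : aeval β (IP x) = imP x β := by
  simp [IP, imP]

private theorem RP_deg (q : ℚ) (d : ℕ) (x : V7 ℚ) : (RP q d x).natDegree ≤ 4 := by
  unfold RP
  compute_degree

private theorem IP_deg (x : V7 ℚ) : (IP x).natDegree ≤ 4 := by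
  unfold IP
  compute_degree!

private theorem IP_zero (x : V7 ℚ) : (IP x).coeff 0 = 0 := by
  simp [IP]

private theorem pC7_sub_smul (x y : V7 ℚ) (r : ℚ) (s : V7 ℂ) :
    pC7 (x - r • y) s = pC7 x s - r * pC7 y s := by
  simp [pC7, pair7, pairV]
  ring

private theorem pair7_sub_smul (l x y : V7 ℚ) (r : ℚ) :
    pair7 l (x - r • y) = pair7 l x - r * pair7 l y := by
  simp [pair7, pairV]
  ring

private theorem pair7_smul_smul (x y : V7 ℚ) (r : ℚ) :
    pair7 (r • x) (r • y) = r * r * pair7 x y := by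
  simp [pair7, pairV]
  ring

private theorem const_of (q : ℚ) (d : ℕ) {β : ℝ} (hβ : Transcendental ℚ β) (v w : V7 ℚ) (c : ℂ)
    (hv : pC7 v (perS q d β) = c) (hw : pC7 w (perS q d β) = c ^ 9) : ∃ r : ℚ, c = (r : ℂ) := by
  rw [pC7_perS] at hv hw
  have h1 : Complex.normSq c = reP q d v β * reP q d v β + imP v β * imP v β := by
    rw [← hv, Complex.normSq_add_mul_I]
    ring
  have h2 : Complex.normSq (c ^ 9) = reP q d w β * reP q d w β + imP w β * imP w β := by
    rw [← hw, Complex.normSq_add_mul_I]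
    ring
  rw [map_pow, h1] at h2
  have h3 : aeval β ((RP q d v * RP q d v + IP v * IP v) ^ 9 -
      (RP q d w * RP q d w + IP w * IP w)) = 0 := by
    simp only [map_sub, map_pow, map_add, map_mul, RP_eval, IP_eval]
    rw [h2, sub_self]
  have h4 : (RP q d v * RP q d v + IP v * IP v) ^ 9 = RP q d w * RP q d w + IP w * IP w := by
    have h5 := (transcendental_iff.1 hβ) _ h3
    exact sub_eq_zero.1 h5
  have h6 : (RP q d w * RP q d w + IP w * IP w).natDegree ≤ 8 := by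
    refine natDegree_add_le_of_degree_le ?_ ?_
    · exact (natDegree_mul_le).trans (by linarith [RP_deg q d w])
    · exact (natDegree_mul_le).trans (by linarith [IP_deg w])
  have h7 : (RP q d v * RP q d v + IP v * IP v).natDegree = 0 := by
    rw [← h4, natDegree_pow] at h6
    omega
  obtain ⟨h8, h9⟩ := sumsq _ _ h7
  have e1 : reP q d v β = (((RP q d v).coeff 0 : ℚ) : ℝ) := by
    rw [← RP_eval, eq_C_of_natDegree_eq_zero h8]
    simp
  have e2 : imP v β = 0 := by
    rw [← IP_eval, eq_C_of_natDegree_eq_zero h9, IP_zero]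
    simp
  refine ⟨(RP q d v).coeff 0, ?_⟩
  rw [← hv, e1, e2]
  simp

theorem perS_general (a b : ℤ) (d : ℕ) (hl : pair7 (lam a b d) (lam a b d) ≠ 0) {β : ℝ}
    (hβ : Transcendental ℚ β) (hline : PicardLine (perS ((b : ℚ) / a) d β) (lam a b d)) :
    HodgeGeneral (perS ((b : ℚ) / a) d β) (lam a b d) := by
  intro φ h1 h2 hc
  obtain ⟨c, hc⟩ := hc
  obtain ⟨t₀, ht₀⟩ : ∃ t₀ : V7 ℚ, t₀ = (![0, 0, 0, 1, 0, 0], 0) := ⟨_, rfl⟩
  have hperp : pair7 (lam a b d) t₀ = 0 := by
    rw [ht₀]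
    simp [pair7, pairV, lam]
  have hone : pC7 t₀ (perS ((b : ℚ) / a) d β) = 1 := by
    rw [ht₀, pC7_perS]
    simp [reP, imP]
  have hn : ∀ n : ℕ, pair7 (lam a b d) ((φ ^ n) t₀) = 0 ∧
      pC7 ((φ ^ n) t₀) (perS ((b : ℚ) / a) d β) = c ^ n := by
    intro n
    induction n with
    | zero =>
      rw [pow_zero, pow_zero, Module.End.one_apply]
      exact ⟨hperp, hone⟩
    | succ n ih =>
      rw [pow_succ' φ, Module.End.mul_apply]
      exact ⟨h1 _ ih.1, by rw [hc _ ih.1, ih.2, pow_succ']⟩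
  obtain ⟨r, hr⟩ := const_of ((b : ℚ) / a) d hβ ((φ ^ 1) t₀) ((φ ^ 9) t₀) c
    (by rw [(hn 1).2, pow_one]) (hn 9).2
  have hall : ∀ t, pair7 (lam a b d) t = 0 → φ t = r • t := by
    intro t ht
    have k1 : pC7 (φ t - r • t) (perS ((b : ℚ) / a) d β) = 0 := by
      rw [pC7_sub_smul, hc t ht, hr]
      ring
    obtain ⟨x, hx⟩ := (hline _).1 k1
    have k2 : pair7 (lam a b d) (φ t - r • t) = 0 := by
      rw [pair7_sub_smul, h1 t ht, ht]
      ring
    have k3 : pair7 (lam a b d) (x • lam a b d) = x * pair7 (lam a b d) (lam a b d) := by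
      simp [pair7, pairV]
      ring
    rw [hx, k3] at k2
    have k4 : x = 0 := (mul_eq_zero.1 k2).resolve_right hl
    rw [k4, zero_smul] at hx
    exact sub_eq_zero.1 hx
  obtain ⟨u, hu⟩ : ∃ u : V7 ℚ, u = (![0, 0, 1, 0, 0, 0], 0) := ⟨_, rfl⟩
  have huperp : pair7 (lam a b d) u = 0 := by
    rw [hu]
    simp [pair7, pairV, lam]
  have htu : pair7 t₀ u = 1 := by
    rw [ht₀, hu]
    simp [pair7, pairV]
  have hrr : r * r = 1 := by
    have k1 := h2 t₀ u hperp huperp
    rw [hall t₀ hperp, hall u huperp, pair7_smul_smul, htu, mul_one] at k1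
    exact k1
  rcases mul_self_eq_one_iff.1 hrr with h3 | h3
  · left
    intro t ht
    rw [hall t ht, h3, one_smul]
  · right
    intro t ht
    rw [hall t ht, h3, neg_smul, one_smul]

end Pool.Agent.H.MP_072fb1_ag.KP
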