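import Pool.Agent.H.MP_072fb1_ag.KP.ExA
import Pool.Agent.H.MP_072fb1_ag.KP.ExB

/-!
# Module Ex: periods with Picard number one and no Hodge isometries besides `1` and `-1`
-/

set_option autoImplicit false

namespace Pool.Agent.H.MP_072fb1_ag.KP

theorem exists_transc7 : ∃ t : ℝ, 0 < t ∧ Transcendental ℚ t := by
  have h1 : Transcendental ℤ (liouvilleNumber ((2 : ℕ) : ℝ)) :=
    transcendental_liouvilleNumber (le_refl 2)
  have h2 : Transcendental ℚ (liouvilleNumber ((2 : ℕ) : ℝ)) := by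
    intro h
    exact h1 ((IsFractionRing.isAlgebraic_iff ℤ ℚ ℝ).2 h)
  have h0 : liouvilleNumber ((2 : ℕ) : ℝ) ≠ 0 := by
    intro h
    rw [h] at h2
    exact h2 isAlgebraic_zero
  refine ⟨(liouvilleNumber ((2 : ℕ) : ℝ)) ^ 2, by positivity, h2.pow (by norm_num)⟩

theorem exists_general (a b : ℤ) (d : ℕ) (ha : a ≠ 0) (hl : pair7 (lam a b d) (lam a b d) ≠ 0) :
    ∃ s : V7 ℂ, IsPeriod7 s ∧ PicardLine s (lam a b d) ∧ HodgeGeneral s (lam a b d) := by
  obtain ⟨β, hβ0, hβ⟩ := exists_transc7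
  have h := perS_line a b d ha hβ
  exact ⟨perS ((b : ℚ) / a) d β, perS_period _ d hβ0, h, perS_general a b d hl hβ h⟩

end Pool.Agent.H.MP_072fb1_ag.KP
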