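import Pool.Agent.H.MP_072fb1_ag.KP.Per

/-!
# Module ExA: Picard number one

`β` transcendental: by `pC7_perS`, `pC7 x s = 0` iff `reP = 0` and `imP = 0` (real and imaginary part); a polynomial with rational
coefficients vanishing at `β` is zero, so `v₃ = v₂ = v₁ = v₄ = 0`, `v₅ = d v₀`, `t = q v₀`, that is `(v, t) = (v₀ / a) λ`, `q = b / a`.
-/

set_option autoImplicit false

namespace Pool.Agent.H.MP_072fb1_ag.KP

private theorem ExA_five {β : ℝ} (hβ : Transcendental ℚ β) (c0 c1 c2 c3 c4 : ℚ)
    (h : (c0 : ℝ) + c1 * β + c2 * β ^ 2 + c3 * β ^ 3 + c4 * β ^ 4 = 0) :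
    c0 = 0 ∧ c1 = 0 ∧ c2 = 0 ∧ c3 = 0 ∧ c4 = 0 := by
  have hp : (Polynomial.C c0 + Polynomial.C c1 * Polynomial.X +
      Polynomial.C c2 * Polynomial.X ^ 2 + Polynomial.C c3 * Polynomial.X ^ 3 +
      Polynomial.C c4 * Polynomial.X ^ 4 : Polynomial ℚ) = 0 := by
    by_contra hne
    exact hβ ⟨_, hne, by simpa using h⟩
  have hc : ∀ n, (Polynomial.C c0 + Polynomial.C c1 * Polynomial.X +
      Polynomial.C c2 * Polynomial.X ^ 2 + Polynomial.C c3 * Polynomial.X ^ 3 +
      Polynomial.C c4 * Polynomial.X ^ 4 : Polynomial ℚ).coeff n = 0 := by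
    intro n
    rw [hp, Polynomial.coeff_zero]
  refine ⟨?_, ?_, ?_, ?_, ?_⟩
  · simpa [Polynomial.coeff_X, Polynomial.coeff_C, Polynomial.coeff_X_pow] using hc 0
  · simpa [Polynomial.coeff_X, Polynomial.coeff_C, Polynomial.coeff_X_pow] using hc 1
  · simpa [Polynomial.coeff_X, Polynomial.coeff_C, Polynomial.coeff_X_pow] using hc 2
  · simpa [Polynomial.coeff_X, Polynomial.coeff_C, Polynomial.coeff_X_pow] using hc 3
  · simpa [Polynomial.coeff_X, Polynomial.coeff_C, Polynomial.coeff_X_pow] using hc 4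

theorem perS_line (a b : ℤ) (d : ℕ) (ha : a ≠ 0) {β : ℝ} (hβ : Transcendental ℚ β) :
    PicardLine (perS ((b : ℚ) / a) d β) (lam a b d) := by
  have haQ : (a : ℚ) ≠ 0 := by exact_mod_cast ha
  have haR : (a : ℝ) ≠ 0 := by exact_mod_cast ha
  intro x
  rw [pC7_perS]
  constructor
  · intro h
    have hre : reP ((b : ℚ) / a) d x β = 0 := by
      have := congrArg Complex.re h
      simpa using this
    have him : imP x β = 0 := by
      have := congrArg Complex.im h
      simpa using this
    obtain ⟨h3, h5, h02, -, h2⟩ := ExA_five hβ (x.1 3) (x.1 5 - d * x.1 0)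
      (6 * ((b : ℚ) / a) * x.1 0 + d * x.1 2 - 6 * x.2) ((1 - 6 * ((b : ℚ) / a)) * x.1 2)
      (3 * x.1 2) (by
        rw [← hre]
        simp only [reP]
        push_cast
        ring)
    obtain ⟨-, h4, h1, -, -⟩ := ExA_five hβ 0 (-x.1 4) (x.1 1) 0 0 (by
        rw [← him]
        simp only [imP]
        push_cast
        ring)
    have h2' : x.1 2 = 0 := by linarith
    have h4' : x.1 4 = 0 := by linarith
    have h5' : x.1 5 = d * x.1 0 := by linarith
    have h6' : x.2 = (b : ℚ) / a * x.1 0 := by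
      rw [h2'] at h02
      linarith
    refine ⟨x.1 0 / a, ?_⟩
    apply Prod.ext
    · funext i
      fin_cases i
      · simp [lam]
        field_simp
      · simp [lam]
        exact h1
      · simp [lam]
        exact h2'
      · simp [lam]
        exact h3
      · simp [lam]
        exact h4'
      · simp [lam]
        rw [h5']
        field_simp
    · simp [lam]
      rw [h6']
      field_simp
  · rintro ⟨r, rfl⟩
    have hre : reP ((b : ℚ) / a) d (r • lam a b d) β = 0 := by
      simp [reP, lam]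
      field_simp
      ring
    have him : imP (r • lam a b d) β = 0 := by
      simp [imP, lam]
    rw [hre, him]
    simp

end Pool.Agent.H.MP_072fb1_ag.KP
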