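import Pool.Agent.H.MP_072fb1_ag.KP.Sgn

/-!
# Module Iso: the Hodge isometry of the second cohomology lattices
-/

set_option autoImplicit false

namespace Pool.Agent.H.MP_072fb1_ag.KP

/-- `dualV` on `V`, `-1` on `δ`. -/
def dualEquiv7 : ((Fin 6 → ℤ) × ℤ) ≃+ ((Fin 6 → ℤ) × ℤ) where
  toFun x := (dualV x.1, -x.2)
  invFun x := (dualV x.1, -x.2)
  left_inv x := by
    refine Prod.ext ?_ (neg_neg _)
    ext i; fin_cases i <;> simp [dualV]
  right_inv x := by
    refine Prod.ext ?_ (neg_neg _)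
    ext i; fin_cases i <;> simp [dualV]
  map_add' x y := by
    refine Prod.ext ?_ (neg_add _ _)
    ext i; fin_cases i <;> simp [dualV, add_comm]

theorem dualEquiv7_apply (x : (Fin 6 → ℤ) × ℤ) : dualEquiv7 x = (dualV x.1, -x.2) := rfl

theorem hodgeIsometric7_dual (s : V7 ℂ) : HodgeIsometric7 s (dual7 s) := by
  refine ⟨dualEquiv7, 1, one_ne_zero, fun x y => ?_, fun x => ?_⟩
  · simp only [dualEquiv7_apply, bb, pairV, dualV, Matrix.cons_val]
    ring
  · simp only [dualEquiv7_apply, pair7, dual7, pairV, dualV, Matrix.cons_val, Int.cast_neg]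
    ring

theorem isPeriod7_dual (s : V7 ℂ) (h : IsPeriod7 s) : IsPeriod7 (dual7 s) := by
  have h1 : pair7 (dual7 s) (dual7 s) = pair7 s s := pair7_dual7 s s
  have h2 : pair7 (dual7 s) (fun i => (starRingEnd ℂ) ((dual7 s).1 i), (starRingEnd ℂ) (dual7 s).2) =
      pair7 s (fun i => (starRingEnd ℂ) (s.1 i), (starRingEnd ℂ) s.2) := by
    simp only [pair7, dual7, pairV, dualV, Matrix.cons_val, map_neg]
    ring
  exact ⟨h1.trans h.1, by rw [h2]; exact h.2⟩

end Pool.Agent.H.MP_072fb1_ag.KP
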