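import Pool.Agent.H.MP_072fb1_ag.KP.Sgn
import Pool.Agent.H.MP_072fb1_ag.Transfer
import Pool.Agent.H.MP_072fb1_ag.Shape
import Pool.Agent.H.MP_072fb1_ag.Rel
import Pool.Agent.H.MP_072fb1_ag.Final

/-!
# Module Non: no lattice automorphism if `3 ∣ d`
-/

set_option autoImplicit false

namespace Pool.Agent.H.MP_072fb1_ag.KP

open Hodge

/-- A vector orthogonal to the orthogonal complement of `h` is a multiple of `h`. -/
theorem Non_perp (d : ℕ) (w : Fin 6 → ℚ)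
    (h : ∀ t : Fin 6 → ℚ, pairV t ![1, 0, 0, 0, 0, (d : ℚ)] = 0 → pairV w t = 0) :
    ∃ r : ℚ, w = r • ![1, 0, 0, 0, 0, (d : ℚ)] := by
  have h1 := h ![1, 0, 0, 0, 0, -(d : ℚ)] (by simp [pairV])
  have h2 := h ![0, 1, 0, 0, 0, 0] (by simp [pairV])
  have h3 := h ![0, 0, 1, 0, 0, 0] (by simp [pairV])
  have h4 := h ![0, 0, 0, 1, 0, 0] (by simp [pairV])
  have h5 := h ![0, 0, 0, 0, 1, 0] (by simp [pairV])
  simp [pairV] at h1 h2 h3 h4 h5
  refine ⟨w 0, funext fun i => ?_⟩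
  fin_cases i
  · simp
  · simpa using h5
  · simpa using h4
  · simpa using h3
  · simpa using h2
  · simp
    linarith

theorem Non_step (d : ℕ) (ψ : Ht ℚ ≃ₗ[ℚ] Ht ℚ) (hψ : ∀ x y, pair (ψ x) (ψ y) = pair x y) (ε : ℚ)
    (hε : ε ^ 2 = 1)
    (h1 : ∀ t : Fin 6 → ℚ, pairV t ![1, 0, 0, 0, 0, (d : ℚ)] = 0 → ψ (t, 0) = (ε • dualV t, 0)) :
    ∀ x : Ht ℚ, (∃ r : ℚ, x.1 = r • ![1, 0, 0, 0, 0, (d : ℚ)]) ↔
      ∃ r : ℚ, (ψ x).1 = r • ![(d : ℚ), 0, 0, 0, 0, 1] := by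
  have hε0 : ε ≠ 0 := by
    rintro rfl
    norm_num at hε
  have hp : ∀ (x : Ht ℚ) (t : Fin 6 → ℚ), pairV t ![1, 0, 0, 0, 0, (d : ℚ)] = 0 →
      ε * pairV (dualV (ψ x).1) t = pairV x.1 t := by
    intro x t ht
    have h2 := hψ x (t, 0)
    rw [h1 t ht] at h2
    simp [pair, pairV, dualV] at h2 ⊢
    linear_combination h2
  intro x
  constructor
  · rintro ⟨r, hr⟩
    obtain ⟨q, hq⟩ := Non_perp d (dualV (ψ x).1) (by
      intro t ht
      have h2 := hp x t ht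
      have h3 : pairV x.1 t = 0 := by
        rw [hr]
        simp [pairV] at ht ⊢
        linear_combination r * ht
      rw [h3] at h2
      exact (mul_eq_zero.1 h2).resolve_left hε0)
    refine ⟨q, ?_⟩
    rw [← dualV_dualV (ψ x).1, hq]
    ext i
    fin_cases i <;> simp [dualV]
  · rintro ⟨r, hr⟩
    refine Non_perp d x.1 fun t ht => ?_
    rw [← hp x t ht, hr]
    simp [pairV, dualV] at ht ⊢
    right
    linear_combination r * ht

theorem not_KIso {S : Type} [AddCommGroup S] [Module ℚ S] (κ : Ht ℚ → Ht ℚ → S → S)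
    (M : Submodule ℤ S) (h : OddKTheory κ M) {a b : ℤ} {d : ℕ} (hd : 0 < d) (h3 : 3 ∣ d) {s : V7 ℂ}
    (hl : PicardLine s (lam a b d)) (hg : HodgeGeneral s (lam a b d)) :
    ¬ KIsomorphic7 κ M s (dual7 s) := by
  rintro ⟨g, ψ0, hgM, hlift, hiso⟩
  let f : Ht ℚ →ₗ[ℚ] Ht ℚ :=
    { toFun := ψ0
      map_add' := hiso.map_add
      map_smul' := fun c x => hiso.map_smul c x }
  have hinj : Function.Injective f := by
    intro x y hxy
    have : x - y = 0 := by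
      apply pair_nondeg
      intro z
      have e1 : pair x z - pair y z = 0 := by
        rw [← hiso.isometry x z, ← hiso.isometry y z]
        have : ψ0 x = ψ0 y := hxy
        rw [this, sub_self]
      rw [pair_sub, e1]
    exact sub_eq_zero.mp this
  let ψ : Ht ℚ ≃ₗ[ℚ] Ht ℚ := LinearEquiv.ofInjectiveEndo f hinj
  have hψ : ∀ x y, pair (ψ x) (ψ y) = pair x y := hiso.isometry
  obtain ⟨ε, hε, hs⟩ := signs7 hl hg ψ hψ hiso.period
  have h1 : ∀ t : Fin 6 → ℚ, pairV t ![1, 0, 0, 0, 0, (d : ℚ)] = 0 →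
      ψ (t, 0) = (ε • dualV t, 0) := by
    intro t ht
    have h2 := hs (t, 0) (by
      simp [pair7, pairV, lam] at ht ⊢
      linear_combination (a : ℚ) * ht)
    have e1 : inc7 (t, 0) = (t, 0) := by
      refine Prod.ext rfl (funext fun i => ?_)
      fin_cases i <;> simp [inc7]
    have e2 : inc7 (ε • dual7 (t, 0)) = (ε • dualV t, 0) := by
      refine Prod.ext rfl (funext fun i => ?_)
      fin_cases i <;> simp [inc7, dual7]
    rwa [e1, e2] at h2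
  have h2 := Non_step d ψ hψ ε hε h1
  have hO := h.toIsOddK
  obtain ⟨Θ, hΘ⟩ := hO.toIsSpin.toModel
  have hK := move_isOddK hO isSpin_kap0 hΘ
  obtain ⟨P, μ, hμ, hfg, hspan, hM⟩ := shape hK
  have hΘ' : ∀ x y t, Θ.symm (kap0 x y t) = h.spin.linear.toLin x y (Θ.symm t) := by
    intro x y t
    rw [LinearEquiv.symm_apply_eq, hΘ, Θ.apply_symm_apply]
  have hg' : ∀ x y t, ((Θ.symm.trans g).trans Θ) (kap0 x y t) =
      kap0 (ψ x) (ψ y) (((Θ.symm.trans g).trans Θ) t) := by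
    intro x y t
    show Θ (g (Θ.symm (kap0 x y t))) = kap0 (ψ x) (ψ y) (Θ (g (Θ.symm t)))
    rw [hΘ', ← hΘ]
    congr 1
    exact hlift x y (Θ.symm t)
  have hgM' : Preserves ((Θ.symm.trans g).trans Θ) (moveM Θ M) := by
    intro t
    rw [mem_moveM, mem_moveM]
    show Θ.symm (Θ (g (Θ.symm t))) ∈ M ↔ _
    rw [Θ.symm_apply_apply]
    exact hgM _
  obtain ⟨A, B, C, e, he, hG⟩ := rel d hd ((Θ.symm.trans g).trans Θ) ψ hg' ε hε h1 h2
  exact final d h3 P μ hμ hfg hspan (moveM Θ M) hM A B C e he ((Θ.symm.trans g).trans Θ) hG hgM'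

end Pool.Agent.H.MP_072fb1_ag.KP
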