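import Pool.Agent.H.MP_072fb1_ag.KP.Defs
import Pool.Agent.H.MP_072fb1_ag.Hodge

/-!
# Module Sgn: an isometry with the right period is `dualV` up to a sign on the transcendental part
-/

set_option autoImplicit false

namespace Pool.Agent.H.MP_072fb1_ag.KP

open Hodge

theorem dual7_dual7 {K : Type*} [CommRing K] (x : V7 K) : dual7 (dual7 x) = x :=
  Prod.ext (dualV_dualV x.1) (neg_neg x.2)

theorem pair7_dual7 {K : Type*} [CommRing K] (x y : V7 K) : pair7 (dual7 x) (dual7 y) = pair7 x y := by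
  simp only [pair7, dual7, pairV, dualV, Matrix.cons_val]
  ring

theorem pair7_comm {K : Type*} [CommRing K] (x y : V7 K) : pair7 x y = pair7 y x := by
  simp only [pair7, pairV]
  ring

theorem pair7_smul_right {K : Type*} [CommRing K] (r : K) (x y : V7 K) :
    pair7 x (r • y) = r * pair7 x y := by
  simp [pair7, pairV]
  ring

theorem pC7_dual7 (x : V7 ℚ) (s : V7 ℂ) : pC7 x (dual7 s) = pC7 (dual7 x) s := by
  simp [pC7, pair7, pairV, dual7, dualV]
  ring

theorem pC7_smul (r : ℚ) (x : V7 ℚ) (s : V7 ℂ) : pC7 (r • x) s = (r : ℂ) * pC7 x s := by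
  simp [pC7, pair7, pairV]
  ring

theorem pC7_sub (x y : V7 ℚ) (s : V7 ℂ) : pC7 (x - y) s = pC7 x s - pC7 y s := by
  simp [pC7, pair7, pairV]
  ring

/-- `V ⊕ ℚδ` in `H̃`. -/
def inc7 (x : V7 ℚ) : Ht ℚ := (x.1, ![0, 0, x.2])

/-- The projection of `H̃` to `V ⊕ ℚδ`. -/
def pr7 (x : Ht ℚ) : V7 ℚ := (x.1, x.2 2)

theorem pr7_inc7 (x : V7 ℚ) : pr7 (inc7 x) = x := rfl

theorem inc7_add (x y : V7 ℚ) : inc7 (x + y) = inc7 x + inc7 y := by
  refine Prod.ext rfl (funext fun i => ?_)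
  fin_cases i <;> simp [inc7]

theorem inc7_smul (r : ℚ) (x : V7 ℚ) : inc7 (r • x) = r • inc7 x := by
  refine Prod.ext rfl (funext fun i => ?_)
  fin_cases i <;> simp [inc7]

theorem pair_inc7 (x : V7 ℚ) (y : Ht ℚ) : pair (inc7 x) y = pair7 x (pr7 y) := by
  simp [pair, pair7, inc7, pr7]

theorem lam_ne (a b : ℤ) (d : ℕ) (s : V7 ℂ) (hl : PicardLine s (lam a b d))
    (h : ∀ x : V7 ℚ, pC7 x s = 0) : False := by
  obtain ⟨r, hr⟩ := (hl (![0, 1, 0, 0, 0, 0], 0)).1 (h _)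
  have h1 := congrFun (congrArg Prod.fst hr) 1
  simp [lam] at h1

theorem signs7 {s : V7 ℂ} {a b : ℤ} {d : ℕ} (hl : PicardLine s (lam a b d))
    (hg : HodgeGeneral s (lam a b d)) (ψ : Ht ℚ ≃ₗ[ℚ] Ht ℚ)
    (hψ : ∀ x y, pair (ψ x) (ψ y) = pair x y)
    (hc : ∃ c : ℂ, ∀ x, pC7 (pr7 (ψ x)) (dual7 s) = c * pC7 (pr7 x) s) :
    ∃ ε : ℚ, ε ^ 2 = 1 ∧ ∀ t, pair7 (lam a b d) t = 0 → ψ (inc7 t) = inc7 (ε • dual7 t) := by
  obtain ⟨c, hc⟩ := hc
  have hc0 : c ≠ 0 := by
    rintro rfl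
    refine lam_ne a b d s hl fun x => ?_
    have h1 := hc (ψ.symm (inc7 (dual7 x)))
    rw [LinearEquiv.apply_symm_apply, zero_mul, pr7_inc7, pC7_dual7, dual7_dual7] at h1
    exact h1
  have hmix : ∀ t, pair7 (lam a b d) t = 0 → ∀ y : Ht ℚ, pC7 (pr7 y) (dual7 s) = 0 →
      pair (ψ (inc7 t)) y = 0 := by
    intro t ht y hy
    obtain ⟨x, rfl⟩ := ψ.surjective y
    rw [hψ, pair_inc7]
    have hx : pC7 (pr7 x) s = 0 := by
      have h1 := hc x
      rw [hy] at h1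
      exact (mul_eq_zero.1 h1.symm).resolve_left hc0
    obtain ⟨r, hr⟩ := (hl _).1 hx
    rw [hr, pair7_smul_right, pair7_comm, ht, mul_zero]
  have h20 : ∀ t, pair7 (lam a b d) t = 0 → (ψ (inc7 t)).2 0 = 0 := by
    intro t ht
    have h1 := hmix t ht (0, ![0, 1, 0]) (by simp [pC7, pair7, pairV, pr7])
    simpa [pair, pairV] using h1
  have h21 : ∀ t, pair7 (lam a b d) t = 0 → (ψ (inc7 t)).2 1 = 0 := by
    intro t ht
    have h1 := hmix t ht (0, ![1, 0, 0]) (by simp [pC7, pair7, pairV, pr7])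
    simpa [pair, pairV] using h1
  have hin : ∀ t, pair7 (lam a b d) t = 0 → ψ (inc7 t) = inc7 (pr7 (ψ (inc7 t))) := by
    intro t ht
    refine Prod.ext rfl (funext fun i => ?_)
    fin_cases i
    · simpa [inc7] using h20 t ht
    · simpa [inc7] using h21 t ht
    · rfl
  let φ : V7 ℚ →ₗ[ℚ] V7 ℚ :=
    { toFun := fun t => dual7 (pr7 (ψ (inc7 t)))
      map_add' := by
        intro x y
        rw [inc7_add, map_add]
        refine Prod.ext (funext fun i => ?_) ?_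
        · fin_cases i <;> simp [dual7, dualV, pr7] <;> ring
        · simp [dual7, pr7]
          ring
      map_smul' := by
        intro r x
        rw [inc7_smul, map_smul]
        refine Prod.ext (funext fun i => ?_) ?_
        · fin_cases i <;> simp [dual7, dualV, pr7]
        · simp [dual7, pr7] }
  have hφ : ∀ t, φ t = dual7 (pr7 (ψ (inc7 t))) := fun t => rfl
  have hor : ∀ t, pair7 (lam a b d) t = 0 → pair7 (lam a b d) (φ t) = 0 := by
    intro t ht
    have h1 := hmix t ht (inc7 (dual7 (lam a b d))) (by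
      rw [pr7_inc7, pC7_dual7, dual7_dual7]
      exact (hl _).2 ⟨1, (one_smul _ _).symm⟩)
    rw [hin t ht, pair_inc7, pr7_inc7, pair7_comm] at h1
    rw [hφ, ← pair7_dual7, dual7_dual7]
    exact h1
  have hiso : ∀ t u, pair7 (lam a b d) t = 0 → pair7 (lam a b d) u = 0 →
      pair7 (φ t) (φ u) = pair7 t u := by
    intro t u ht hu
    rw [hφ, hφ, pair7_dual7]
    have h1 := hψ (inc7 t) (inc7 u)
    rw [hin t ht, pair_inc7, pair_inc7, pr7_inc7] at h1
    exact h1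
  have hho : ∀ t, pair7 (lam a b d) t = 0 → pC7 (φ t) s = c * pC7 t s := by
    intro t _
    rw [hφ, ← pC7_dual7, hc, pr7_inc7]
  rcases hg φ hor hiso ⟨c, hho⟩ with h | h
  · refine ⟨1, by norm_num, fun t ht => ?_⟩
    rw [hin t ht, one_smul]
    congr 1
    rw [← dual7_dual7 (pr7 (ψ (inc7 t))), ← hφ, h t ht]
  · refine ⟨-1, by norm_num, fun t ht => ?_⟩
    rw [hin t ht]
    congr 1
    rw [← dual7_dual7 (pr7 (ψ (inc7 t))), ← hφ, h t ht]
    refine Prod.ext (funext fun i => ?_) ?_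
    · fin_cases i <;> simp [dual7, dualV]
    · simp [dual7]

end Pool.Agent.H.MP_072fb1_ag.KP
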