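import Pool.Agent.H.MP_072fb1_ag.KP.Shy
import Pool.Agent.H.MP_072fb1_ag.KP.Sgn

/-!
# Module Shz: the lattice automorphism if `3` does not divide `a` and `d`
-/

set_option autoImplicit false

namespace Pool.Agent.H.MP_072fb1_ag.KP

open Matrix

set_option maxHeartbeats 4000000

/-- multiplication on the right by `!![-b, 1; v, b]` -/
def rg (b v : ℚ) (x : Matrix (Fin 4) (Fin 2) ℚ) : Matrix (Fin 4) (Fin 2) ℚ :=
  !![v * x 0 1 - b * x 0 0, x 0 0 + b * x 0 1; v * x 1 1 - b * x 1 0, x 1 0 + b * x 1 1;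
    v * x 2 1 - b * x 2 0, x 2 0 + b * x 2 1; v * x 3 1 - b * x 3 0, x 3 0 + b * x 3 1]

/-- the lattice automorphism in coordinates -/
def gG (a b d v : ℚ) (z : S0) : S0 :=
  (lm a (a * d) z.1 - (3 : ℚ) • rg b v z.2, rg b v z.1 + lm (a * d) a z.2)

/-- its inverse in coordinates -/
def gInvG (a b d v s : ℚ) (z : S0) : S0 :=
  (-(s • lm (a * d) a z.1) - (3 * s) • rg b v z.2, s • rg b v z.1 - s • lm a (a * d) z.2)

/-- the vector `n` -/
def nV (a b d v : ℚ) : Ht ℚ := (![-a, 0, 0, 0, 0, -(a * d)], ![v, -3, -b])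

theorem nV_pair (a b d v s : ℚ) (hd : a ^ 2 * d = 3 * v + 3 * b ^ 2 + s) :
    pair (nV a b d v) (nV a b d v) = 2 * s := by
  simp [pair, pairV, nV]
  linear_combination 2 * hd

theorem gN_eq (a b d v : ℚ) (z : S0) : gN (nV a b d v) z = gG a b d v z := by
  refine Prod.ext (Matrix.ext fun i j => ?_) (Matrix.ext fun i j => ?_) <;>
  fin_cases i <;> fin_cases j <;>
  simp [gN, gG, nV, cX, cJ, lm, rg, Matrix.mul_apply, Matrix.vecMul, dotProduct, Fin.sum_univ_four, toMat,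
    dualV, mW] <;> ring

theorem gNi_eq (a b d v s : ℚ) (z : S0) : gNi (nV a b d v) s z = gInvG a b d v s z := by
  refine Prod.ext (Matrix.ext fun i j => ?_) (Matrix.ext fun i j => ?_) <;>
  fin_cases i <;> fin_cases j <;>
  simp [gNi, gInvG, nV, cX, cJ, lm, rg, Matrix.mul_apply, Matrix.vecMul, dotProduct, Fin.sum_univ_four, toMat,
    dualV, mW] <;> ring

theorem pair_add_l (x y z : Ht ℚ) : pair (x + y) z = pair x z + pair y z := by
  simp [pair, pairV]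
  ring

theorem pair_smul_l (c : ℚ) (x z : Ht ℚ) : pair (c • x) z = c * pair x z := by
  simp [pair, pairV]
  ring

theorem pair_io (x y : Ht ℚ) : pair (io x) (io y) = pair x y := by
  simp [pair, pairV, io, dualV]
  ring

theorem pair_comb (n x y : Ht ℚ) (c e : ℚ) :
    pair (c • n - x) (e • n - y) = c * e * pair n n - c * pair n y - e * pair x n + pair x y := by
  simp [pair, pairV]
  ring

theorem pair_psiN (n : Ht ℚ) (s : ℚ) (hs : s * s = 1) (hn : pair n n = 2 * s) (x y : Ht ℚ) :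
    pair (psiN n s x) (psiN n s y) = pair x y := by
  rw [psiN, psiN, pair_io, rfl7, rfl7, pair_comb, hn]
  have h7 : pair n y = pair y n := by simp only [pair, pairV]; ring
  rw [h7]
  linear_combination (2 * s * pair x n * pair y n) * hs

theorem psiN_add (n : Ht ℚ) (s : ℚ) (x y : Ht ℚ) : psiN n s (x + y) = psiN n s x + psiN n s y := by
  rw [psiN, psiN, psiN, rfl7, rfl7, rfl7, pair_add_l]
  refine Prod.ext (funext fun i => ?_) (funext fun i => ?_) <;> fin_cases i <;>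
  simp [io, dualV] <;> ring

theorem psiN_smul (n : Ht ℚ) (s c : ℚ) (x : Ht ℚ) : psiN n s (c • x) = c • psiN n s x := by
  rw [psiN, psiN, rfl7, rfl7, pair_smul_l]
  refine Prod.ext (funext fun i => ?_) (funext fun i => ?_) <;> fin_cases i <;>
  simp [io, dualV] <;> ring

theorem period_psiN (a b : ℤ) (d : ℕ) (v s : ℚ) (τ : V7 ℂ) (hN : pC7 (lam a b d) τ = 0) (x : Ht ℚ) :
    pC7 ((psiN (nV a b d v) s x).1, (psiN (nV a b d v) s x).2 2) (dual7 τ) =
      (-1) * pC7 (x.1, x.2 2) τ := by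
  have h1 : (((psiN (nV a b d v) s x).1, (psiN (nV a b d v) s x).2 2) : V7 ℚ) =
      dual7 ((-(s * pair x (nV a b d v))) • lam a b d - (x.1, x.2 2)) := by
    rw [psiN, rfl7]
    generalize s * pair x (nV a b d v) = c
    refine Prod.ext (funext fun i => ?_) ?_
    · fin_cases i <;> simp [io, dual7, dualV, nV, lam] <;> rfl
    · simp [io, dual7, nV, lam]
      rfl
  rw [h1, pC7_dual7, dual7_dual7, pC7_sub, pC7_smul, hN]
  ring

theorem sharpG (a b : ℤ) (d : ℕ) (ha : ¬ (3 : ℤ) ∣ a) (h3 : ¬ 3 ∣ d) (τ : V7 ℂ)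
    (hN : pC7 (lam a b d) τ = 0) (M : Submodule ℤ S0) (hM : ∀ s : S0, s ∈ M ↔ IsInt s) :
    KIsomorphic7 (fun x y z => kap0 x y z) M τ (dual7 τ) := by
  obtain ⟨v, s, hs, hd⟩ : ∃ v s : ℤ, (s = 1 ∨ s = -1) ∧ a ^ 2 * (d : ℤ) = 3 * v + 3 * b ^ 2 + s := by
    have h1 : (a ^ 2) % 3 = 1 := by
      have h2 : a % 3 = 1 ∨ a % 3 = 2 := by omega
      rcases h2 with h | h <;> simp [pow_two, Int.mul_emod, h]
    have h2 : (a ^ 2 * (d : ℤ)) % 3 = 1 ∨ (a ^ 2 * (d : ℤ)) % 3 = 2 := by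
      rw [Int.mul_emod, h1]
      omega
    rcases h2 with h | h
    · exact ⟨(a ^ 2 * (d : ℤ)) / 3 - b ^ 2, 1, Or.inl rfl, by omega⟩
    · exact ⟨(a ^ 2 * (d : ℤ)) / 3 + 1 - b ^ 2, -1, Or.inr rfl, by omega⟩
  have hs' : (s : ℚ) = 1 ∨ (s : ℚ) = -1 := by
    rcases hs with rfl | rfl <;> simp
  have hd' : (a : ℚ) ^ 2 * (d : ℚ) = 3 * (v : ℚ) + 3 * (b : ℚ) ^ 2 + (s : ℚ) := by exact_mod_cast hd
  have hint : ∀ z : S0, IsInt z → IsInt (gG a b d v z) := by
    rintro z ⟨h1, h2⟩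
    choose A hA using h1
    choose B hB using h2
    constructor
    · intro i j
      fin_cases i <;> fin_cases j
      · exact ⟨a * A 1 0 - 3 * (v * B 0 1 - b * B 0 0), by simp [gG, lm, rg, hA, hB]⟩
      · exact ⟨a * A 1 1 - 3 * (B 0 0 + b * B 0 1), by simp [gG, lm, rg, hA, hB]⟩
      · exact ⟨-(a * A 0 0) - 3 * (v * B 1 1 - b * B 1 0), by simp [gG, lm, rg, hA, hB]⟩
      · exact ⟨-(a * A 0 1) - 3 * (B 1 0 + b * B 1 1), by simp [gG, lm, rg, hA, hB]⟩
      · exact ⟨a * d * A 3 0 - 3 * (v * B 2 1 - b * B 2 0), by simp [gG, lm, rg, hA, hB]⟩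
      · exact ⟨a * d * A 3 1 - 3 * (B 2 0 + b * B 2 1), by simp [gG, lm, rg, hA, hB]⟩
      · exact ⟨-(a * d * A 2 0) - 3 * (v * B 3 1 - b * B 3 0), by simp [gG, lm, rg, hA, hB]⟩
      · exact ⟨-(a * d * A 2 1) - 3 * (B 3 0 + b * B 3 1), by simp [gG, lm, rg, hA, hB]⟩
    · intro i j
      fin_cases i <;> fin_cases j
      · exact ⟨v * A 0 1 - b * A 0 0 + a * d * B 1 0, by simp [gG, lm, rg, hA, hB]⟩
      · exact ⟨A 0 0 + b * A 0 1 + a * d * B 1 1, by simp [gG, lm, rg, hA, hB]⟩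
      · exact ⟨v * A 1 1 - b * A 1 0 + -(a * d * B 0 0), by simp [gG, lm, rg, hA, hB]⟩
      · exact ⟨A 1 0 + b * A 1 1 + -(a * d * B 0 1), by simp [gG, lm, rg, hA, hB]⟩
      · exact ⟨v * A 2 1 - b * A 2 0 + a * B 3 0, by simp [gG, lm, rg, hA, hB]⟩
      · exact ⟨A 2 0 + b * A 2 1 + a * B 3 1, by simp [gG, lm, rg, hA, hB]⟩
      · exact ⟨v * A 3 1 - b * A 3 0 + -(a * B 2 0), by simp [gG, lm, rg, hA, hB]⟩
      · exact ⟨A 3 0 + b * A 3 1 + -(a * B 2 1), by simp [gG, lm, rg, hA, hB]⟩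
  have hintInv : ∀ z : S0, IsInt z → IsInt (gInvG a b d v s z) := by
    rintro z ⟨h1, h2⟩
    choose A hA using h1
    choose B hB using h2
    constructor
    · intro i j
      fin_cases i <;> fin_cases j
      · exact ⟨-(s * (a * d * A 1 0)) - 3 * s * (v * B 0 1 - b * B 0 0), by
          simp [gInvG, lm, rg, hA, hB]⟩
      · exact ⟨-(s * (a * d * A 1 1)) - 3 * s * (B 0 0 + b * B 0 1), by
          simp [gInvG, lm, rg, hA, hB]⟩
      · exact ⟨s * (a * d * A 0 0) - 3 * s * (v * B 1 1 - b * B 1 0), by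
          simp [gInvG, lm, rg, hA, hB]⟩
      · exact ⟨s * (a * d * A 0 1) - 3 * s * (B 1 0 + b * B 1 1), by
          simp [gInvG, lm, rg, hA, hB]⟩
      · exact ⟨-(s * (a * A 3 0)) - 3 * s * (v * B 2 1 - b * B 2 0), by
          simp [gInvG, lm, rg, hA, hB]⟩
      · exact ⟨-(s * (a * A 3 1)) - 3 * s * (B 2 0 + b * B 2 1), by
          simp [gInvG, lm, rg, hA, hB]⟩
      · exact ⟨s * (a * A 2 0) - 3 * s * (v * B 3 1 - b * B 3 0), by
          simp [gInvG, lm, rg, hA, hB]⟩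
      · exact ⟨s * (a * A 2 1) - 3 * s * (B 3 0 + b * B 3 1), by
          simp [gInvG, lm, rg, hA, hB]⟩
    · intro i j
      fin_cases i <;> fin_cases j
      · exact ⟨s * (v * A 0 1 - b * A 0 0) - s * (a * B 1 0), by simp [gInvG, lm, rg, hA, hB]⟩
      · exact ⟨s * (A 0 0 + b * A 0 1) - s * (a * B 1 1), by simp [gInvG, lm, rg, hA, hB]⟩
      · exact ⟨s * (v * A 1 1 - b * A 1 0) + s * (a * B 0 0), by simp [gInvG, lm, rg, hA, hB]⟩
      · exact ⟨s * (A 1 0 + b * A 1 1) + s * (a * B 0 1), by simp [gInvG, lm, rg, hA, hB]⟩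
      · exact ⟨s * (v * A 2 1 - b * A 2 0) - s * (a * d * B 3 0), by simp [gInvG, lm, rg, hA, hB]⟩
      · exact ⟨s * (A 2 0 + b * A 2 1) - s * (a * d * B 3 1), by simp [gInvG, lm, rg, hA, hB]⟩
      · exact ⟨s * (v * A 3 1 - b * A 3 0) + s * (a * d * B 2 0), by simp [gInvG, lm, rg, hA, hB]⟩
      · exact ⟨s * (A 3 0 + b * A 3 1) + s * (a * d * B 2 1), by simp [gInvG, lm, rg, hA, hB]⟩
  have hs2 : (s : ℚ) * s = 1 := by
    rcases hs' with h | h <;> rw [h] <;> norm_num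
  have hn := nV_pair a b d v s hd'
  refine ⟨gNE (nV a b d v) s hs2 hn, psiN (nV a b d v) s, ?_, ?_, psiN_add _ _,
    fun c x => psiN_smul _ _ c x, ?_, -1, ?_⟩
  · intro z
    rw [hM, hM]
    show IsInt (gN (nV a b d v) z) ↔ IsInt z
    rw [gN_eq]
    constructor
    · intro h
      have h1 := hintInv _ h
      have h2 : gNi (nV a b d v) s (gN (nV a b d v) z) = z := (gNE (nV a b d v) s hs2 hn).left_inv z
      rw [gN_eq, gNi_eq] at h2
      rwa [h2] at h1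
    · exact hint z
  · intro x y z
    exact gN_kap _ _ hs2 hn x y z
  · intro x y
    exact pair_psiN _ _ hs2 hn x y
  · intro x
    exact period_psiN a b d v s τ hN x

end Pool.Agent.H.MP_072fb1_ag.KP
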