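import Pool.Agent.H.MP_072fb1_ag.KP.Ex
import Pool.Agent.H.MP_072fb1_ag.KP.Non
import Pool.Agent.H.MP_072fb1_ag.KP.Shz
import Pool.Agent.H.MP_072fb1_ag.KP.Iso
import Pool.Agent.H.MP_072fb1_ag.Spin0b

/-!
# Module Main
-/

set_option autoImplicit false

namespace Pool.Agent.H.MP_072fb1_ag.KP

theorem main :
    (∀ (a b : ℤ) (d : ℕ), a ≠ 0 → 0 < pair7 (lam a b d) (lam a b d) →
      ∃ s : V7 ℂ, IsPeriod7 s ∧ PicardLine s (lam a b d) ∧ HodgeGeneral s (lam a b d)) ∧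
    (∀ (a b : ℤ) (d : ℕ) (s : V7 ℂ), 0 < d → IsPeriod7 s → PicardLine s (lam a b d) →
      HodgeGeneral s (lam a b d) → IsPeriod7 (dual7 s) ∧ HodgeIsometric7 s (dual7 s) ∧
      (3 ∣ d → ∀ (S : Type) [AddCommGroup S] [Module ℚ S] (κ : Ht ℚ → Ht ℚ → S → S)
        (M : Submodule ℤ S), OddKTheory κ M → ¬ KIsomorphic7 κ M s (dual7 s))) ∧
    (∃ (κ : Ht ℚ → Ht ℚ → Matrix (Fin 4) (Fin 2) ℚ × Matrix (Fin 4) (Fin 2) ℚ →
          Matrix (Fin 4) (Fin 2) ℚ × Matrix (Fin 4) (Fin 2) ℚ)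
        (M : Submodule ℤ (Matrix (Fin 4) (Fin 2) ℚ × Matrix (Fin 4) (Fin 2) ℚ)), OddKTheory κ M ∧
      ∀ (a b : ℤ) (d : ℕ) (s : V7 ℂ), 0 < d → ¬ (3 : ℤ) ∣ a → PicardLine s (lam a b d) →
        HodgeGeneral s (lam a b d) → (KIsomorphic7 κ M s (dual7 s) ↔ ¬ 3 ∣ d)) :=
  ⟨fun a b d ha hl => exists_general a b d ha hl.ne',
    fun _ _ _ s hd hs hl hg => ⟨isPeriod7_dual s hs, hodgeIsometric7_dual s,
      fun h3 _ _ _ κ M h => not_KIso κ M h hd h3 hl hg⟩,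
    fun x y s => kap0 x y s, M0, isOddK0.toOddKTheory, fun a b d s hd ha hl hg =>
      ⟨fun h h3 => not_KIso _ M0 isOddK0.toOddKTheory hd h3 hl hg h,
        fun h3 => sharpG a b d ha h3 s ((hl _).2 ⟨1, (one_smul _ _).symm⟩) M0 mem_M0⟩⟩

end Pool.Agent.H.MP_072fb1_ag.KP
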