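import Pool.Agent.H.MP_072fb1_ag.KP.Defs

/-!
# Module Per: the explicit periods
-/

set_option autoImplicit false

namespace Pool.Agent.H.MP_072fb1_ag.KP

/-- The period. -/
noncomputable def perS (q : ℚ) (d : ℕ) (β : ℝ) : V7 ℂ :=
  (![(β : ℂ), Complex.I * β, 1, β ^ 3 + d * β ^ 2 - 6 * q * β ^ 3 + 3 * β ^ 4, -(Complex.I * β ^ 2),
    -(d * β) + 6 * q * β ^ 2], β ^ 2)

/-- The real part of the pairing with `x`. -/
noncomputable def reP (q : ℚ) (d : ℕ) (x : V7 ℚ) (β : ℝ) : ℝ :=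
  x.1 3 + (x.1 5 - d * x.1 0) * β + (6 * q * x.1 0 + d * x.1 2 - 6 * x.2) * β ^ 2 +
    (1 - 6 * q) * x.1 2 * β ^ 3 + 3 * x.1 2 * β ^ 4

/-- The imaginary part of the pairing with `x`. -/
noncomputable def imP (x : V7 ℚ) (β : ℝ) : ℝ := x.1 1 * β ^ 2 - x.1 4 * β

theorem pC7_perS (q : ℚ) (d : ℕ) (β : ℝ) (x : V7 ℚ) :
    pC7 x (perS q d β) = (reP q d x β : ℂ) + (imP x β : ℂ) * Complex.I := by
  simp [pC7, pair7, pairV, perS, reP, imP]
  ring

theorem perS_period (q : ℚ) (d : ℕ) {β : ℝ} (hβ : 0 < β) : IsPeriod7 (perS q d β) := by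
  constructor
  · simp only [pair7, pairV, perS, Matrix.cons_val]
    ring_nf
    simp only [Complex.I_sq]
    ring
  · have h : pair7 (perS q d β) (fun i => (starRingEnd ℂ) ((perS q d β).1 i),
        (starRingEnd ℂ) (perS q d β).2) = ((4 * β ^ 3 : ℝ) : ℂ) := by
      have h3 : (starRingEnd ℂ) 3 = 3 := map_ofNat _ 3
      have h6 : (starRingEnd ℂ) 6 = 6 := map_ofNat _ 6
      simp [pair7, pairV, perS, h3, h6]
      ring_nf
      simp only [Complex.I_sq]
      ring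
    rw [h, Complex.ofReal_re]
    positivity

end Pool.Agent.H.MP_072fb1_ag.KP
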