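import Pool.Agent.H.MP_072fb1_ag.KP.Defs
import Pool.Agent.H.MP_072fb1_ag.Spin0a

/-!
# Module Shx: Clifford multiplication by vectors on the model
-/

set_option autoImplicit false

namespace Pool.Agent.H.MP_072fb1_ag.KP

open Matrix

set_option maxHeartbeats 4000000

/-- the action of a vector, up to the central element -/
def cX (x : Ht ℚ) (z : S0) : S0 :=
  ((3 : ℚ) • (z.1 * mW x.2) - (3 : ℚ) • (toMat (dualV x.1) * z.2),
   -(toMat x.1 * z.1) - (3 : ℚ) • (z.2 * mW x.2))

theorem cX_kap (x y : Ht ℚ) (z : S0) : cX x (cX y z) = (-3 : ℚ) • kapFun x y z := by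
  refine Prod.ext (Matrix.ext fun i j => ?_) (Matrix.ext fun i j => ?_) <;>
  fin_cases i <;> fin_cases j <;>
  simp [kapFun, cX, Matrix.mul_apply, Matrix.vecMul, dotProduct, Fin.sum_univ_four, toMat, dualV, mW] <;> ring

theorem cX_anti (x y : Ht ℚ) (z : S0) : cX x (cX y z) + cX y (cX x z) = (-3 * pair x y) • z := by
  refine Prod.ext (Matrix.ext fun i j => ?_) (Matrix.ext fun i j => ?_) <;>
  fin_cases i <;> fin_cases j <;>
  simp [cX, Matrix.mul_apply, Matrix.vecMul, dotProduct, Fin.sum_univ_four, toMat, dualV, mW, pair, pairV] <;> ring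

theorem cX_add (x y : Ht ℚ) (z : S0) : cX (x + y) z = cX x z + cX y z := by
  refine Prod.ext (Matrix.ext fun i j => ?_) (Matrix.ext fun i j => ?_) <;>
  simp only [cX, Prod.fst_add, Prod.snd_add, toMat_add, dualV_add, mW_add, Matrix.mul_add,
    Matrix.add_mul, smul_add, Matrix.add_apply, Matrix.sub_apply, Matrix.neg_apply] <;> ring

theorem cX_smul (c : ℚ) (x : Ht ℚ) (z : S0) : cX (c • x) z = c • cX x z := by
  refine Prod.ext (Matrix.ext fun i j => ?_) (Matrix.ext fun i j => ?_) <;>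
  simp only [cX, Prod.smul_fst, Prod.smul_snd, toMat_smul, dualV_smul, mW_smul, Matrix.mul_smul,
    Matrix.smul_mul, Matrix.smul_apply, Matrix.sub_apply, Matrix.neg_apply, smul_eq_mul] <;> ring

theorem cX_smul' (c : ℚ) (x : Ht ℚ) (z : S0) : cX x (c • z) = c • cX x z := by
  refine Prod.ext (Matrix.ext fun i j => ?_) (Matrix.ext fun i j => ?_) <;>
  simp only [cX, Prod.smul_fst, Prod.smul_snd, Matrix.mul_smul,
    Matrix.smul_mul, Matrix.smul_apply, Matrix.sub_apply, Matrix.neg_apply, smul_eq_mul] <;> ring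

/-- `-r_n` for a vector with `(n, n) = 2 s`, `s = ± 1` -/
def rfl7 (n : Ht ℚ) (s : ℚ) (x : Ht ℚ) : Ht ℚ := (s * pair x n) • n - x

theorem cX_comm (n : Ht ℚ) (s : ℚ) (hs : s * s = 1) (hn : pair n n = 2 * s) (x : Ht ℚ) (z : S0) :
    cX n (cX x z) = cX (rfl7 n s x) (cX n z) := by
  have h1 := cX_anti n x z
  have h2 := cX_anti n n z
  have h3 : cX (rfl7 n s x) (cX n z) = (s * pair x n) • cX n (cX n z) - cX x (cX n z) := by
    rw [rfl7, sub_eq_add_neg, cX_add, cX_smul, ← neg_one_smul ℚ x, cX_smul, neg_one_smul,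
      ← sub_eq_add_neg]
  have h4 : cX n (cX n z) = (-3 * s) • z := by
    have h5 : (2 : ℚ) • cX n (cX n z) = (2 : ℚ) • ((-3 * s) • z) := by
      rw [two_smul, h2, hn, smul_smul]
      congr 1
      ring
    exact smul_right_injective S0 (by norm_num : (2 : ℚ) ≠ 0) h5
  rw [h3, h4, smul_smul]
  have h6 : s * pair x n * (-3 * s) = -3 * pair n x := by
    have h7 : pair x n = pair n x := by simp only [pair, pairV]; ring
    rw [h7]
    linear_combination (-3 * pair n x) * hs
  rw [h6, ← h1]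
  abel

/-- a lift of `(dualV, -1)` -/
def cJ (z : S0) : S0 := ((3 : ℚ) • z.2, z.1)

/-- `(dualV, -1)` -/
def io (x : Ht ℚ) : Ht ℚ := (dualV x.1, -x.2)

theorem cJ_cX (x : Ht ℚ) (z : S0) : cJ (cX x z) = cX (io x) (cJ z) := by
  refine Prod.ext (Matrix.ext fun i j => ?_) (Matrix.ext fun i j => ?_) <;>
  fin_cases i <;> fin_cases j <;>
  simp [cX, cJ, io, Matrix.mul_apply, Matrix.vecMul, dotProduct, Fin.sum_univ_four, toMat, dualV, mW] <;> ring

end Pool.Agent.H.MP_072fb1_ag.KP
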