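import Pool.Agent.H.MP_072fb1_ag.KP.Shx
import Pool.Agent.H.MP_072fb1_ag.Sharp

/-!
# Module Shy: the lattice automorphism if `3` does not divide `a` and `d`

`ψ = ι ∘ r_n`, `n = (-a h, (v, -3, -b))`, `(n, n) = 2 s`, `s = ± 1`, `ι = (dualV, -1)`; the lift is `cJ ∘ cX n`, divided by `3`.
-/

set_option autoImplicit false

namespace Pool.Agent.H.MP_072fb1_ag.KP

open Matrix

set_option maxHeartbeats 4000000

theorem cJ_smul (c : ℚ) (z : S0) : cJ (c • z) = c • cJ z := by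
  refine Prod.ext ?_ ?_
  · simp [cJ, smul_comm c (3 : ℚ)]
  · simp [cJ]

theorem cX_addz (x : Ht ℚ) (z z' : S0) : cX x (z + z') = cX x z + cX x z' := by
  refine Prod.ext (Matrix.ext fun i j => ?_) (Matrix.ext fun i j => ?_) <;>
  simp only [cX, Prod.fst_add, Prod.snd_add, Matrix.mul_add,
    Matrix.add_mul, smul_add, Matrix.add_apply, Matrix.sub_apply, Matrix.neg_apply] <;> ring

theorem cJ_add (z z' : S0) : cJ (z + z') = cJ z + cJ z' := by
  refine Prod.ext ?_ ?_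
  · simp [cJ]
  · simp [cJ]

theorem cJ_cJ (z : S0) : cJ (cJ z) = (3 : ℚ) • z := by
  refine Prod.ext ?_ ?_
  · simp [cJ]
  · simp [cJ]

theorem cX_cX (n : Ht ℚ) (s : ℚ) (hn : pair n n = 2 * s) (z : S0) :
    cX n (cX n z) = (-3 * s) • z := by
  have h5 : (2 : ℚ) • cX n (cX n z) = (2 : ℚ) • ((-3 * s) • z) := by
    rw [two_smul, cX_anti n n z, hn, smul_smul]
    congr 1
    ring
  exact smul_right_injective S0 (by norm_num : (2 : ℚ) ≠ 0) h5

/-- the lift of `ι ∘ r_n` -/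
def gN (n : Ht ℚ) (z : S0) : S0 := (1 / 3 : ℚ) • cJ (cX n z)

/-- its inverse -/
def gNi (n : Ht ℚ) (s : ℚ) (z : S0) : S0 := (-s / 3 : ℚ) • cX n (cJ z)

/-- the lift as a linear equivalence -/
def gNE (n : Ht ℚ) (s : ℚ) (hs : s * s = 1) (hn : pair n n = 2 * s) : S0 ≃ₗ[ℚ] S0 where
  toFun := gN n
  invFun := gNi n s
  map_add' x y := by simp only [gN, cX_addz, cJ_add, smul_add]
  map_smul' c x := by
    simp only [gN, cX_smul', cJ_smul, RingHom.id_apply]
    rw [smul_comm]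
  left_inv x := by
    simp only [gN, gNi, cJ_smul, cX_smul', cJ_cJ, cX_cX n s hn, smul_smul]
    have h : -s / 3 * (1 / 3 * 3 * (-3 * s)) = 1 := by linear_combination hs
    rw [h, one_smul]
  right_inv x := by
    simp only [gN, gNi, cJ_smul, cX_smul', cJ_cJ, cX_cX n s hn, smul_smul]
    have h : 1 / 3 * (-s / 3 * (-3 * s) * 3) = 1 := by linear_combination hs
    rw [h, one_smul]

/-- `ι ∘ r_n` -/
def psiN (n : Ht ℚ) (s : ℚ) (x : Ht ℚ) : Ht ℚ := io (rfl7 n s x)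

theorem gN_kap (n : Ht ℚ) (s : ℚ) (hs : s * s = 1) (hn : pair n n = 2 * s) (x y : Ht ℚ) (z : S0) :
    gN n (kapFun x y z) = kapFun (psiN n s x) (psiN n s y) (gN n z) := by
  have h1 : ∀ (x y : Ht ℚ) (z : S0), kapFun x y z = (-1 / 3 : ℚ) • cX x (cX y z) := by
    intro x y z
    rw [cX_kap, smul_smul]
    norm_num
  rw [h1, h1 (psiN n s x)]
  simp only [gN, psiN, cJ_smul, cX_smul', cX_comm n s hs hn, cJ_cX]
  rw [smul_comm]

end Pool.Agent.H.MP_072fb1_ag.KP
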